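import Mathlib

/-!
# Perpendicular orders

Orders of dimension at most two, orders of height one, and a criterion with two linear extensions.
-/

namespace Pool.Agent.TH179.Perp

variable {X : Type*}

/-- `P` is an order (a reflexive, transitive and antisymmetric relation). -/
def IsOrd (P : X → X → Prop) : Prop :=
  (∀ x, P x x) ∧ (∀ x y z, P x y → P y z → P x z) ∧ (∀ x y, P x y → P y x → x = y)

/-- `L` is a linear order. -/
def IsLin (L : X → X → Prop) : Prop := IsOrd L ∧ ∀ x y, L x y ∨ L y x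

/-- `f` preserves the relation `P`. -/
def Pres (P : X → X → Prop) (f : X → X) : Prop := ∀ x y, P x y → P (f x) (f y)

/-- `f` is a constant map. -/
def IsConst (f : X → X) : Prop := ∃ c, ∀ x, f x = c

/-- `P` and `Q` are perpendicular: a map preserving both is the identity or constant. -/
def Perpendicular (P Q : X → X → Prop) : Prop :=
  ∀ f : X → X, Pres P f → Pres Q f → f = id ∨ IsConst f

/-- `A` is a nontrivial autonomous set of `P`. -/
def IsAutonomous (P : X → X → Prop) (A : Set X) : Prop :=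
  A ≠ Set.univ ∧ (∃ a ∈ A, ∃ b ∈ A, a ≠ b) ∧
    ∀ x, x ∉ A → ((∃ a ∈ A, P x a) → ∀ a ∈ A, P x a) ∧ ((∃ a ∈ A, P a x) → ∀ a ∈ A, P a x)

/-- `f` is an embedding of `P` in itself. -/
def IsEmb (P : X → X → Prop) (f : X → X) : Prop :=
  Function.Injective f ∧ ∀ x y, P x y ↔ P (f x) (f y)

/-- `A` is convex for the relation `L`. -/
def IsInterval (L : X → X → Prop) (A : Set X) : Prop :=
  ∀ a ∈ A, ∀ b ∈ A, ∀ z, L a z → L z b → z ∈ A

/-- `y` is the successor of `x` in the linear order `L`. -/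
def Consecutive (L : X → X → Prop) (x y : X) : Prop :=
  x ≠ y ∧ L x y ∧ ∀ z, L x z → L z y → z = x ∨ z = y

theorem not_injective_class {P : X → X → Prop} (hP : ¬ ∃ A, IsAutonomous P A) {f : X → X} {u v : X}
    (huv : u ≠ v) (hf : f u = f v)
    (h : ∀ x, f x ≠ f u → ((∃ a, f a = f u ∧ P x a) → ∀ a, f a = f u → P x a) ∧
      ((∃ a, f a = f u ∧ P a x) → ∀ a, f a = f u → P a x)) : IsConst f := by
  by_contra hc
  apply hP
  refine ⟨{x | f x = f u}, ?_, ⟨u, rfl, v, hf.symm, huv⟩, ?_⟩
  · intro he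
    apply hc
    refine ⟨f u, fun x => ?_⟩
    have : x ∈ {x | f x = f u} := by rw [he]; trivial
    exact this
  · intro x hx
    exact h x hx

/-- Two linear orders, any cardinality: the order `L₁ ∩ L₂⁻¹`. -/
theorem inter_isOrd {L₁ L₂ : X → X → Prop} (h1 : IsLin L₁) (h2 : IsLin L₂) :
    IsOrd (fun x y => L₁ x y ∧ L₂ y x) :=
  ⟨fun x => ⟨h1.1.1 x, h2.1.1 x⟩,
   fun x y z hxy hyz => ⟨h1.1.2.1 x y z hxy.1 hyz.1, h2.1.2.1 z y x hyz.2 hxy.2⟩,
   fun x y hxy hyx => h1.1.2.2 x y hxy.1 hyx.1⟩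

theorem two_dim {P L₁ L₂ : X → X → Prop} (h1 : IsLin L₁) (h2 : IsLin L₂)
    (hPL : ∀ x y, P x y ↔ L₁ x y ∧ L₂ x y) (hA : ¬ ∃ A, IsAutonomous P A)
    {f : X → X} (hf : Pres P f) (hg : Pres (fun x y => L₁ x y ∧ L₂ y x) f) :
    IsConst f ∨ (IsEmb L₁ f ∧ IsEmb L₂ f ∧ IsEmb P f) := by
  -- monotone for both linear orders
  have m1 : Pres L₁ f := by
    intro x y hxy
    rcases h2.2 x y with h | h
    · exact ((hPL _ _).1 (hf x y ((hPL x y).2 ⟨hxy, h⟩))).1
    · exact (hg x y ⟨hxy, h⟩).1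
  have m2 : Pres L₂ f := by
    intro x y hxy
    rcases h1.2 x y with h | h
    · exact ((hPL _ _).1 (hf x y ((hPL x y).2 ⟨h, hxy⟩))).2
    · exact (hg y x ⟨h, hxy⟩).2
  by_cases hinj : Function.Injective f
  · right
    have e1 : IsEmb L₁ f := by
      refine ⟨hinj, fun x y => ⟨m1 x y, fun h => ?_⟩⟩
      rcases h1.2 x y with h' | h'
      · exact h'
      · have := hinj (h1.1.2.2 _ _ h (m1 _ _ h'))
        rw [this]; exact h1.1.1 y
    have e2 : IsEmb L₂ f := by
      refine ⟨hinj, fun x y => ⟨m2 x y, fun h => ?_⟩⟩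
      rcases h2.2 x y with h' | h'
      · exact h'
      · have := hinj (h2.1.2.2 _ _ h (m2 _ _ h'))
        rw [this]; exact h2.1.1 y
    refine ⟨e1, e2, hinj, fun x y => ?_⟩
    rw [hPL, hPL, e1.2 x y, e2.2 x y]
  · left
    simp only [Function.Injective, not_forall] at hinj
    obtain ⟨u, v, huv, hne⟩ := hinj
    refine not_injective_class hA hne huv ?_
    -- the class of `u` is an interval of both linear orders
    intro x hx
    constructor
    · rintro ⟨a, ha, hxa⟩ b hb
      have hxa' := (hPL _ _).1 hxa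
      rw [hPL]
      constructor
      · rcases h1.2 x b with h | h
        · exact h
        · exact absurd (h1.1.2.2 _ _ (ha ▸ m1 _ _ hxa'.1) (hb ▸ m1 _ _ h)) hx
      · rcases h2.2 x b with h | h
        · exact h
        · exact absurd (h2.1.2.2 _ _ (ha ▸ m2 _ _ hxa'.2) (hb ▸ m2 _ _ h)) hx
    · rintro ⟨a, ha, hxa⟩ b hb
      have hxa' := (hPL _ _).1 hxa
      rw [hPL]
      constructor
      · rcases h1.2 b x with h | h
        · exact h
        · exact absurd (h1.1.2.2 _ _ (hb ▸ m1 _ _ h) (ha ▸ m1 _ _ hxa'.1)) hx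
      · rcases h2.2 b x with h | h
        · exact h
        · exact absurd (h2.1.2.2 _ _ (hb ▸ m2 _ _ h) (ha ▸ m2 _ _ hxa'.2)) hx

/-- An injective map preserving a linear order of a finite set is the identity. -/
theorem eq_id_of_injective [Finite X] {L : X → X → Prop} (hL : IsLin L) {f : X → X}
    (hf : Pres L f) (hinj : Function.Injective f) : f = id := by
  classical
  let _ : LinearOrder X :=
    { le := L
      le_refl := hL.1.1
      le_trans := hL.1.2.1
      le_antisymm := hL.1.2.2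
      le_total := hL.2
      toDecidableLE := Classical.decRel _ }
  have hmono : StrictMono f := by
    intro a b hab
    have h1 : f a ≤ f b := hf a b hab.le
    exact lt_of_le_of_ne h1 (fun h => hab.ne (hinj h))
  funext x
  exact le_antisymm (hmono.apply_le) (hmono.le_apply)

theorem pres_of_consecutive [Finite X] {L : X → X → Prop} (hL : IsLin L) {f : X → X}
    (h : ∀ x y, Consecutive L x y → L (f x) (f y)) : Pres L f := by
  have key : ∀ n : ℕ, ∀ x y, {z | L x z ∧ L z y}.ncard ≤ n → L x y → L (f x) (f y) := by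
    intro n
    induction n with
    | zero =>
      intro x y hc hxy
      have : {z | L x z ∧ L z y} = ∅ := by
        rw [← Set.ncard_eq_zero (Set.toFinite _)]; omega
      have hx : x ∈ {z | L x z ∧ L z y} := ⟨hL.1.1 x, hxy⟩
      rw [this] at hx
      exact absurd hx (Set.notMem_empty x)
    | succ n ih =>
      intro x y hc hxy
      by_cases hne : x = y
      · subst hne; exact hL.1.1 _
      by_cases hz : ∃ z, L x z ∧ L z y ∧ z ≠ x ∧ z ≠ y
      · obtain ⟨z, hxz, hzy, hzx, hzy'⟩ := hz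
        have c1 : {w | L x w ∧ L w z}.ncard < {w | L x w ∧ L w y}.ncard := by
          apply Set.ncard_lt_ncard _ (Set.toFinite _)
          refine ⟨fun w hw => ⟨hw.1, hL.1.2.1 _ _ _ hw.2 hzy⟩, fun hsub => ?_⟩
          have hy := hsub (show y ∈ {w | L x w ∧ L w y} from ⟨hxy, hL.1.1 y⟩)
          exact hzy' (hL.1.2.2 _ _ hzy hy.2)
        have c2 : {w | L z w ∧ L w y}.ncard < {w | L x w ∧ L w y}.ncard := by
          apply Set.ncard_lt_ncard _ (Set.toFinite _)
          refine ⟨fun w hw => ⟨hL.1.2.1 _ _ _ hxz hw.1, hw.2⟩, fun hsub => ?_⟩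
          have hy := hsub (show x ∈ {w | L x w ∧ L w y} from ⟨hL.1.1 x, hxy⟩)
          exact hzx (hL.1.2.2 _ _ hy.1 hxz)
        exact hL.1.2.1 _ _ _ (ih x z (by omega) hxz) (ih z y (by omega) hzy)
      · push Not at hz
        refine h x y ⟨hne, hxy, fun z hxz hzy => ?_⟩
        by_contra hcon
        push Not at hcon
        exact hcon.2 (hz z hxz hzy hcon.1)
  intro x y hxy
  exact key _ x y le_rfl hxy

/-- The criterion with two linear extensions. -/
theorem criterion [Finite X] {P L₁ L₂ : X → X → Prop} (h1 : IsLin L₁) (h2 : IsLin L₂)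
    (e1 : ∀ x y, P x y → L₁ x y) (e2 : ∀ x y, P x y → L₂ x y)
    (c1 : ∀ x y, Consecutive L₁ x y → P x y ∨ L₂ y x)
    (c2 : ∀ x y, Consecutive L₂ x y → P x y ∨ L₁ y x)
    (hs : ∀ A : Set X, (∃ a ∈ A, ∃ b ∈ A, a ≠ b) → IsInterval L₁ A → IsInterval L₂ A →
      A = Set.univ) :
    Perpendicular P (fun x y => L₁ x y ∧ L₂ y x) := by
  intro f hf hg
  have m1 : Pres L₁ f := by
    apply pres_of_consecutive h1
    intro x y hc
    rcases c1 x y hc with h | h
    · exact e1 _ _ (hf _ _ h)
    · exact (hg x y ⟨hc.2.1, h⟩).1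
  have m2 : Pres L₂ f := by
    apply pres_of_consecutive h2
    intro x y hc
    rcases c2 x y hc with h | h
    · exact e2 _ _ (hf _ _ h)
    · exact (hg y x ⟨h, hc.2.1⟩).2
  by_cases hinj : Function.Injective f
  · left; exact eq_id_of_injective h1 m1 hinj
  · right
    simp only [Function.Injective, not_forall] at hinj
    obtain ⟨u, v, huv, hne⟩ := hinj
    have hM := hs {x | f x = f u} ⟨u, rfl, v, huv.symm, hne⟩
      (fun a ha b hb z haz hzb => h1.1.2.2 _ _ (hb ▸ m1 _ _ hzb) (ha ▸ m1 _ _ haz))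
      (fun a ha b hb z haz hzb => h2.1.2.2 _ _ (hb ▸ m2 _ _ hzb) (ha ▸ m2 _ _ haz))
    refine ⟨f u, fun x => ?_⟩
    have : x ∈ {x | f x = f u} := by rw [hM]; trivial
    exact this

/-- Height one, any cardinality. -/
theorem height_one {P : X → X → Prop} (hP : IsOrd P)
    (hA : ¬ ∃ A, IsAutonomous P A)
    (hh : ∀ x y z, P x y → P y z → x = y ∨ y = z)
    (hne : ∃ x y, x ≠ y ∧ P x y)
    (hex1 : ∀ x, (∃ y, x ≠ y ∧ P x y) → ∃ y, (∃ w, w ≠ y ∧ P w y) ∧ ¬ P x y)
    (hex2 : ∀ y, (∃ x, x ≠ y ∧ P x y) → ∃ x, (∃ w, x ≠ w ∧ P x w) ∧ ¬ P x y) :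
    ∃ Q : X → X → Prop, IsOrd Q ∧ ∀ f : X → X, Pres P f → Pres Q f → IsConst f ∨ IsEmb P f := by
  -- lower and upper elements
  obtain ⟨lo, hlo⟩ : ∃ lo : X → Prop, ∀ x, lo x ↔ ∃ y, x ≠ y ∧ P x y := ⟨_, fun _ => Iff.rfl⟩
  obtain ⟨hi, hhi⟩ : ∃ hi : X → Prop, ∀ y, hi y ↔ ∃ x, x ≠ y ∧ P x y := ⟨_, fun _ => Iff.rfl⟩
  have hdisj : ∀ x, lo x → hi x → False := by
    intro x h h'
    obtain ⟨y, hxy, hy⟩ := (hlo x).1 h
    obtain ⟨w, hwx, hw⟩ := (hhi x).1 h'
    rcases hh w x y hw hy with h | h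
    · exact hwx h
    · exact hxy h
  have hcov : ∀ x, lo x ∨ hi x := by
    intro x
    by_contra hcon
    push Not at hcon
    obtain ⟨u, v, huv, hP'⟩ := hne
    have hun : ∀ y, y ≠ x → ¬ P x y ∧ ¬ P y x := fun y hy =>
      ⟨fun h => hcon.1 ((hlo x).2 ⟨y, hy.symm, h⟩), fun h => hcon.2 ((hhi x).2 ⟨y, hy, h⟩)⟩
    have hux : u ≠ x := fun h => by
      subst h; exact (hun v huv.symm).1 hP'
    have hvx : v ≠ x := fun h => by
      subst h; exact (hun u huv).2 hP'
    apply hA
    refine ⟨{y | y ≠ x}, ?_, ⟨u, hux, v, hvx, huv⟩, ?_⟩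
    · intro he
      have : x ∈ {y | y ≠ x} := by rw [he]; trivial
      exact this rfl
    · intro y hy
      have hyx : y = x := by
        by_contra h; exact hy h
      subst hyx
      exact ⟨fun ⟨a, ha, h⟩ => absurd h (hun a ha).1, fun ⟨a, ha, h⟩ => absurd h (hun a ha).2⟩
  have hloP : ∀ x y, P x y → x ≠ y → lo x ∧ hi y := fun x y h hxy =>
    ⟨(hlo x).2 ⟨y, hxy, h⟩, (hhi y).2 ⟨x, hxy, h⟩⟩
  have hex1' : ∀ x, lo x → ∃ y, hi y ∧ ¬ P x y := by
    intro x hx
    obtain ⟨y, hy, h⟩ := hex1 x ((hlo x).1 hx)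
    exact ⟨y, (hhi y).2 hy, h⟩
  have hex2' : ∀ y, hi y → ∃ x, lo x ∧ ¬ P x y := by
    intro y hy
    obtain ⟨x, hx, h⟩ := hex2 y ((hhi y).1 hy)
    exact ⟨x, (hlo x).2 hx, h⟩
  refine ⟨fun x y => x = y ∨ (hi x ∧ lo y ∧ ¬ P y x), ⟨fun x => Or.inl rfl, ?_, ?_⟩, ?_⟩
  · rintro x y z (rfl | ⟨hx, hy, hxy⟩) (rfl | ⟨hy', hz, hyz⟩)
    · exact Or.inl rfl
    · exact Or.inr ⟨hy', hz, hyz⟩
    · exact Or.inr ⟨hx, hy, hxy⟩
    · exact absurd hy' (fun h => hdisj _ hy h)
  · rintro x y (rfl | ⟨hx, hy, hxy⟩) (h | ⟨hy', hz, hyz⟩)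
    · rfl
    · rfl
    · exact h.symm
    · exact absurd hy' (fun h => hdisj _ hy h)
  intro f hf hg
  -- the key facts
  have kP : ∀ x y, P x y → f x ≠ f y → lo (f x) ∧ hi (f y) ∧ P (f x) (f y) := by
    intro x y h hne
    exact ⟨(hloP _ _ (hf _ _ h) hne).1, (hloP _ _ (hf _ _ h) hne).2, hf _ _ h⟩
  have kQ : ∀ x y, lo x → hi y → ¬ P x y → f x ≠ f y → lo (f x) ∧ hi (f y) ∧ ¬ P (f x) (f y) := by
    intro x y hx hy h hne
    rcases hg y x (Or.inr ⟨hy, hx, h⟩) with h' | h'
    · exact absurd h'.symm hne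
    · exact ⟨h'.2.1, h'.1, h'.2.2⟩
  -- in all cases a lower and an upper element in different classes: images lower and upper
  by_cases hinj : Function.Injective f
  · right
    have flo : ∀ x, lo x → lo (f x) := by
      intro x hx
      obtain ⟨y, hxy, hy⟩ := (hlo x).1 hx
      exact (kP x y hy (fun h => hxy (hinj h))).1
    have fhi : ∀ x, hi x → hi (f x) := by
      intro y hy
      obtain ⟨x, hxy, hx⟩ := (hhi y).1 hy
      exact (kP x y hx (fun h => hxy (hinj h))).2.1
    refine ⟨hinj, fun x y => ⟨hf x y, fun h => ?_⟩⟩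
    by_contra hxy
    have hne : x ≠ y := fun h => hxy (h ▸ hP.1 x)
    have hfne : f x ≠ f y := fun h => hne (hinj h)
    obtain ⟨h1, h2⟩ := hloP _ _ h hfne
    have hx : lo x := (hcov x).resolve_right (fun h' => hdisj _ h1 (fhi x h'))
    have hy : hi y := (hcov y).resolve_left (fun h' => hdisj _ (flo y h') h2)
    exact (kQ x y hx hy hxy hfne).2.2 h
  · left
    simp only [Function.Injective, not_forall] at hinj
    obtain ⟨u, v, huv, hne⟩ := hinj
    by_cases hmix : (∃ a, f a = f u ∧ lo a) ∧ (∃ b, f b = f u ∧ hi b)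
    · obtain ⟨⟨a, ha, hla⟩, ⟨b, hb, hhb⟩⟩ := hmix
      refine ⟨f u, fun x => ?_⟩
      rcases hcov (f u) with hm | hm
      · -- the value is a lower element: all lower elements are in the class
        have hall : ∀ z, lo z → f z = f u := by
          intro z hz
          by_contra hcon
          by_cases hzb : P z b
          · have := (kP z b hzb (by rw [hb]; exact hcon)).2.1
            rw [hb] at this
            exact hdisj _ hm this
          · have := (kQ z b hz hhb hzb (by rw [hb]; exact hcon)).2.1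
            rw [hb] at this
            exact hdisj _ hm this
        rcases hcov x with hx | hx
        · exact hall x hx
        · by_contra hcon
          obtain ⟨w, hw, hwx⟩ := hex2' x hx
          obtain ⟨w', hw'x, hw'⟩ := (hhi x).1 hx
          have hlw' : lo w' := (hloP _ _ hw' hw'x).1
          have h1 := (kQ w x hw hx hwx (by rw [hall w hw]; exact fun h => hcon h.symm)).2.2
          have h2 := hf _ _ hw'
          rw [hall w hw] at h1
          rw [hall w' hlw'] at h2
          exact h1 h2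
      · have hall : ∀ z, hi z → f z = f u := by
          intro z hz
          by_contra hcon
          by_cases hzb : P a z
          · have := (kP a z hzb (by rw [ha]; exact fun h => hcon h.symm)).1
            rw [ha] at this
            exact hdisj _ this hm
          · have := (kQ a z hla hz hzb (by rw [ha]; exact fun h => hcon h.symm)).1
            rw [ha] at this
            exact hdisj _ this hm
        rcases hcov x with hx | hx
        · by_contra hcon
          obtain ⟨w, hw, hwx⟩ := hex1' x hx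
          obtain ⟨w', hw'x, hw'⟩ := (hlo x).1 hx
          have hlw' : hi w' := (hloP _ _ hw' hw'x).2
          have h1 := (kQ x w hx hw hwx (by rw [hall w hw]; exact hcon)).2.2
          have h2 := hf _ _ hw'
          rw [hall w hw] at h1
          rw [hall w' hlw'] at h2
          exact h1 h2
        · exact hall x hx
    · refine not_injective_class hA hne huv ?_
      intro x hx
      have pure : (∀ a, f a = f u → lo a) ∨ (∀ a, f a = f u → hi a) := by
        by_contra hcon
        push Not at hcon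
        obtain ⟨⟨a, ha, hla⟩, ⟨b, hb, hhb⟩⟩ := hcon
        exact hmix ⟨⟨b, hb, (hcov b).resolve_right hhb⟩, ⟨a, ha, (hcov a).resolve_left hla⟩⟩
      constructor
      · rintro ⟨a, ha, hxa⟩ b hb
        by_contra hxb
        have hxa' : x ≠ a := fun h => hx (h ▸ ha)
        obtain ⟨hlx, hha⟩ := hloP _ _ hxa hxa'
        have hhb : hi b := by
          rcases pure with h | h
          · exact absurd hha (fun h' => hdisj _ (h a ha) h')
          · exact h b hb
        have h1 := (kQ x b hlx hhb hxb (by rw [hb]; exact hx)).2.2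
        have h2 := hf _ _ hxa
        rw [hb] at h1
        rw [ha] at h2
        exact h1 h2
      · rintro ⟨a, ha, hxa⟩ b hb
        by_contra hxb
        have hxa' : a ≠ x := fun h => hx (h ▸ ha)
        obtain ⟨hla, hhx⟩ := hloP _ _ hxa hxa'
        have hlb : lo b := by
          rcases pure with h | h
          · exact h b hb
          · exact absurd hla (fun h' => hdisj _ h' (h a ha))
        have h1 := (kQ b x hlb hhx hxb (by rw [hb]; exact fun h => hx h.symm)).2.2
        have h2 := hf _ _ hxa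
        rw [hb] at h1
        rw [ha] at h2
        exact h1 h2

/-- `x` and `y` are incomparable in `P`. -/
def Incomp (P : X → X → Prop) (x y : X) : Prop := ¬ P x y ∧ ¬ P y x

/-- `x` and `x'` are in the same relation of `P` to `y`. -/
def SameRel (P : X → X → Prop) (x x' y : X) : Prop := (P x y ↔ P x' y) ∧ (P y x ↔ P y x')

/-- The order whose strict relations are the pairs `s < t` with `s ∈ S`, `t ∉ S` and `s`, `t`
incomparable in `P`. -/
def Bip (P : X → X → Prop) (S : Set X) (x y : X) : Prop :=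
  x = y ∨ (x ∈ S ∧ y ∉ S ∧ Incomp P x y)

theorem bip_isOrd (P : X → X → Prop) (S : Set X) : IsOrd (Bip P S) := by
  refine ⟨fun x => Or.inl rfl, ?_, ?_⟩
  · rintro x y z (rfl | ⟨hx, hy, hxy⟩) (rfl | ⟨hy', hz, hyz⟩)
    · exact Or.inl rfl
    · exact Or.inr ⟨hy', hz, hyz⟩
    · exact Or.inr ⟨hx, hy, hxy⟩
    · exact absurd hy' hy
  · rintro x y (rfl | ⟨hx, hy, hxy⟩) (h | ⟨hy', hz, hyz⟩)
    · rfl
    · rfl
    · exact h.symm
    · exact absurd hy' hy

/-- If `x`, `x'` are in one class, and in different relations to `y` on the other side, then `y` is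
in the class. -/
theorem same_class {P : X → X → Prop} (hP : IsOrd P) {S : Set X} {f : X → X} (hf : Pres P f)
    (hg : Pres (Bip P S) f) {x x' y : X} (hx : (x ∈ S ∧ x' ∈ S ∧ y ∉ S) ∨ (x ∉ S ∧ x' ∉ S ∧ y ∈ S))
    (hxx : f x = f x') (h : ¬ SameRel P x x' y) : f y = f x := by
  by_contra hne
  -- three exclusive relations, each preserved
  have key : ∀ z z' : X, ((z ∈ S ∧ z' ∈ S ∧ y ∉ S) ∨ (z ∉ S ∧ z' ∉ S ∧ y ∈ S)) → f z = f x →
      f z' = f x → (P z y → P z' y) ∧ (P y z → P y z') := by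
    intro z z' hz h1 h2
    have hinc : Incomp P z' y → ¬ P (f z') (f y) ∧ ¬ P (f y) (f z') := by
      intro hi
      rcases hz with ⟨_, hz', hy⟩ | ⟨_, hz', hy⟩
      · rcases hg z' y (Or.inr ⟨hz', hy, hi⟩) with h' | h'
        · exact absurd (h'.symm.trans h2) hne
        · exact h'.2.2
      · rcases hg y z' (Or.inr ⟨hy, hz', hi.2, hi.1⟩) with h' | h'
        · exact absurd (h'.trans h2) hne
        · exact ⟨h'.2.2.2, h'.2.2.1⟩
    constructor
    · intro hzy
      by_contra hcon
      have a1 : P (f x) (f y) := h1 ▸ hf _ _ hzy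
      by_cases h3 : P y z'
      · have a2 : P (f y) (f x) := h2 ▸ hf _ _ h3
        exact hne (hP.2.2 _ _ a2 a1)
      · exact (hinc ⟨hcon, h3⟩).1 (h2 ▸ a1)
    · intro hzy
      by_contra hcon
      have a1 : P (f y) (f x) := h1 ▸ hf _ _ hzy
      by_cases h3 : P z' y
      · have a2 : P (f x) (f y) := h2 ▸ hf _ _ h3
        exact hne (hP.2.2 _ _ a1 a2)
      · exact (hinc ⟨h3, hcon⟩).2 (h2 ▸ a1)
  apply h
  have k1 := key x x' hx rfl hxx.symm
  have k2 := key x' x (by tauto) hxx.symm rfl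
  exact ⟨⟨k1.1, k2.1⟩, ⟨k1.2, k2.2⟩⟩

/-- The criterion with a set `S`, any height and any cardinality. -/
theorem bip_criterion {P : X → X → Prop} (hP : IsOrd P) {S : Set X}
    (hi : ∀ x, ∃ y, (x ∈ S ↔ y ∉ S) ∧ Incomp P x y)
    (hT : ∀ x y, x ≠ y → (x ∈ S ↔ y ∈ S) → ∃ z z', (z ∈ S ↔ x ∉ S) ∧ (z' ∈ S ↔ x ∉ S) ∧
      Incomp P x z ∧ Incomp P x z' ∧ ¬ SameRel P z z' y)
    {f : X → X} (hf : Pres P f) (hg : Pres (Bip P S) f) :
    IsConst f ∨ (Function.Injective f ∧ ∀ x, x ∈ S ↔ f x ∈ S) := by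
  by_cases hinj : Function.Injective f
  · right
    refine ⟨hinj, fun x => ?_⟩
    obtain ⟨y, hxy, hinc⟩ := hi x
    have hne : x ≠ y := fun h => by subst h; exact hinc.1 (hP.1 x)
    by_cases hx : x ∈ S
    · rcases hg x y (Or.inr ⟨hx, hxy.1 hx, hinc⟩) with h | h
      · exact absurd (hinj h) hne
      · exact ⟨fun _ => h.1, fun _ => hx⟩
    · have hy : y ∈ S := by
        by_contra hy; exact hx (hxy.2 hy)
      rcases hg y x (Or.inr ⟨hy, hx, hinc.2, hinc.1⟩) with h | h
      · exact absurd (hinj h) hne.symm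
      · exact ⟨fun h' => absurd h' hx, fun h' => absurd h' h.2.1⟩
  · left
    simp only [Function.Injective, not_forall] at hinj
    obtain ⟨u, v, huv, hne⟩ := hinj
    -- an element of the class on each side
    have hmix : (∃ a, f a = f u ∧ a ∈ S) ∧ (∃ b, f b = f u ∧ b ∉ S) := by
      by_cases hside : (u ∈ S ↔ v ∈ S)
      · obtain ⟨z, z', hz, hz', h1, h2, h3⟩ := hT u v hne hside
        -- one of `z`, `z'` is comparable to `v`, so it is in the class
        have hcl : ∃ w, (w ∈ S ↔ u ∉ S) ∧ f w = f u := by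
          have hone : ∀ w, (w ∈ S ↔ u ∉ S) → Incomp P u w → (P w v ∨ P v w) → f w = f u := by
            intro w hw h1 h
            have := same_class hP (x := u) (x' := v) (y := w) hf hg (by tauto) huv (by
              intro hs
              rcases h with h | h
              · exact h1.2 (hs.2.2 h)
              · exact h1.1 (hs.1.2 h))
            exact this
          by_cases c1 : P z v ∨ P v z
          · exact ⟨z, hz, hone z hz h1 c1⟩
          · by_cases c2 : P z' v ∨ P v z'
            · exact ⟨z', hz', hone z' hz' h2 c2⟩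
            · exfalso
              apply h3
              unfold SameRel
              tauto
        obtain ⟨w, hw, hwu⟩ := hcl
        by_cases hu : u ∈ S
        · exact ⟨⟨u, rfl, hu⟩, ⟨w, hwu, fun h => (hw.1 h) hu⟩⟩
        · exact ⟨⟨w, hwu, hw.2 hu⟩, ⟨u, rfl, hu⟩⟩
      · by_cases hu : u ∈ S
        · exact ⟨⟨u, rfl, hu⟩, ⟨v, huv.symm, fun h => hside ⟨fun _ => h, fun _ => hu⟩⟩⟩
        · refine ⟨⟨v, huv.symm, ?_⟩, ⟨u, rfl, hu⟩⟩
          by_contra hv
          exact hside ⟨fun h => absurd h hu, fun h => absurd h hv⟩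
    obtain ⟨⟨a, ha, haS⟩, ⟨b, hb, hbS⟩⟩ := hmix
    refine ⟨f u, ?_⟩
    by_cases hm : f u ∈ S
    · -- the elements of `S` incomparable to an element of the class outside `S` are in the class
      have h1 : ∀ s t, s ∈ S → t ∉ S → Incomp P s t → f t = f u → f s = f u := by
        intro s t hs ht hi' hft
        rcases hg s t (Or.inr ⟨hs, ht, hi'⟩) with h | h
        · exact h.trans hft
        · exact absurd (hft ▸ hm) h.2.1
      have h2 : ∀ t, t ∉ S → f t = f u := by
        intro t ht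
        by_cases hbt : b = t
        · rw [← hbt]; exact hb
        obtain ⟨z, z', hz, hz', i1, i2, h3⟩ := hT b t hbt (by tauto)
        have e1 := h1 z b (by tauto) hbS ⟨i1.2, i1.1⟩ hb
        have e2 := h1 z' b (by tauto) hbS ⟨i2.2, i2.1⟩ hb
        exact (same_class hP hf hg (by tauto) (e1.trans e2.symm) h3).trans e1
      intro x
      by_cases hx : x ∈ S
      · obtain ⟨y, hxy, hinc⟩ := hi x
        exact h1 x y hx (hxy.1 hx) hinc (h2 y (hxy.1 hx))
      · exact h2 x hx
    · have h1 : ∀ s t, s ∈ S → t ∉ S → Incomp P s t → f s = f u → f t = f u := by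
        intro s t hs ht hi' hfs
        rcases hg s t (Or.inr ⟨hs, ht, hi'⟩) with h | h
        · exact h.symm.trans hfs
        · exact absurd (hfs ▸ h.1) hm
      have h2 : ∀ s, s ∈ S → f s = f u := by
        intro t ht
        by_cases hbt : a = t
        · rw [← hbt]; exact ha
        obtain ⟨z, z', hz, hz', i1, i2, h3⟩ := hT a t hbt (by tauto)
        have e1 := h1 a z haS (by tauto) i1 ha
        have e2 := h1 a z' haS (by tauto) i2 ha
        exact (same_class hP hf hg (by tauto) (e1.trans e2.symm) h3).trans e1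
      intro x
      by_cases hx : x ∈ S
      · exact h2 x hx
      · obtain ⟨y, hxy, hinc⟩ := hi x
        have hy : y ∈ S := by
          by_contra hy; exact hx (hxy.2 hy)
        exact h1 y x hy hx ⟨hinc.2, hinc.1⟩ (h2 y hy)

/-- An order in which distinct elements are incomparable, without nontrivial autonomous sets. -/
theorem antichain {P : X → X → Prop} (hP : IsOrd P) (hA : ¬ ∃ A, IsAutonomous P A)
    (hne : ¬ ∃ x y, x ≠ y ∧ P x y) (f : X → X) : IsConst f ∨ IsEmb P f := by
  have heq : ∀ x y, P x y → x = y := fun x y h => by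
    by_contra hxy; exact hne ⟨x, y, hxy, h⟩
  by_cases hinj : Function.Injective f
  · right
    refine ⟨hinj, fun x y => ⟨fun h => ?_, fun h => ?_⟩⟩
    · rw [heq _ _ h]; exact hP.1 _
    · rw [hinj (heq _ _ h)]; exact hP.1 _
  · left
    simp only [Function.Injective, not_forall] at hinj
    obtain ⟨u, v, huv, hne'⟩ := hinj
    refine not_injective_class hA hne' huv ?_
    intro x hx
    exact ⟨fun ⟨a, ha, h⟩ => absurd ha ((heq _ _ h) ▸ hx), fun ⟨a, ha, h⟩ => absurd ha ((heq _ _ h).symm ▸ hx)⟩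

/-- Height at most one, any cardinality. -/
theorem height_le_one {P : X → X → Prop} (hP : IsOrd P)
    (hA : ¬ ∃ A, IsAutonomous P A)
    (hh : ∀ x y z, P x y → P y z → x = y ∨ y = z)
    (hex1 : ∀ x, (∃ y, x ≠ y ∧ P x y) → ∃ y, (∃ w, w ≠ y ∧ P w y) ∧ ¬ P x y)
    (hex2 : ∀ y, (∃ x, x ≠ y ∧ P x y) → ∃ x, (∃ w, x ≠ w ∧ P x w) ∧ ¬ P x y) :
    ∃ Q : X → X → Prop, IsOrd Q ∧ ∀ f : X → X, Pres P f → Pres Q f → IsConst f ∨ IsEmb P f := by
  by_cases hne : ∃ x y, x ≠ y ∧ P x y
  · exact height_one hP hA hh hne hex1 hex2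
  · exact ⟨P, hP, fun f _ _ => antichain hP hA hne f⟩

end Pool.Agent.TH179.Perp
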