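import Pool.Agent.TH179.Perp

/-!
# Perpendicular orders: all orders of height at most one
-/

namespace Pool.Agent.TH179.Perp

variable {X : Type*}

/-- The value of a nontrivial class is a lower element: the map is constant. -/
theorem case_lo {P Q : X → X → Prop} {lo hi Z W : X → Prop} {a0 b0 : X} {f : X → X}
    (hdisj : ∀ x, lo x → hi x → False)
    (hcov : ∀ x, lo x ∨ hi x)
    (hup : ∀ x, lo x → ∃ y, hi y ∧ P x y) (hdn : ∀ y, hi y → ∃ x, lo x ∧ P x y)
    (hZ : ∀ y, Z y ↔ hi y ∧ ∀ x, lo x → P x y) (hW : ∀ x, W x ↔ lo x ∧ ∀ y, hi y → P x y)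
    (ha0 : lo a0) (hb0 : hi b0) (hb0Z : ¬ Z b0)
    (hbad : (¬ ∃ a1, lo a1 ∧ (∀ y, hi y → P a1 y → Z y) ∧ ∀ x, lo x → (P x b0 ↔ x ≠ a1)) ∨
      ∀ y, hi y → ¬ Z y → y = b0)
    (hQs : ∀ x y, Q x y → lo x → x ≠ y → W x ∧ y = a0)
    (kP : ∀ x y, lo x → hi y → P x y → f x ≠ f y → lo (f x) ∧ hi (f y) ∧ P (f x) (f y))
    (kQ : ∀ x y, lo x → hi y → ¬ P x y → f x ≠ f y → Q (f y) (f x) ∧ ¬ P (f x) (f y))
    (hgQ : ∀ y, Z y → Q (f b0) (f y))
    (hmix : ∀ u v, u ≠ v → f u = f v → (∃ a, f a = f u ∧ lo a) ∧ (∃ b, f b = f u ∧ hi b))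
    {c b : X} (hb : f b = c) (hhb : hi b) (hc : lo c) :
    ∀ x, f x = c := by
  have uB : ∀ y, hi y → f y ≠ c → ∀ x, lo x → f x = c → P x y →
      ∀ x', lo x' → f x' = c → P x' y := by
    intro y hy hyc x hx hxc hxy x' hx' hxc'
    by_contra hcon
    have h1 := (kQ x' y hx' hy hcon (by rw [hxc']; exact fun h => hyc h.symm)).2
    have h2 := (kP x y hx hy hxy (by rw [hxc]; exact fun h => hyc h.symm)).2.2
    rw [hxc'] at h1
    rw [hxc] at h2
    exact h1 h2
  have s1' : ∀ x, lo x → f x ≠ c → ∀ y, hi y → f y = c → ¬ P x y := by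
    intro x hx hxc y hy hyc h
    have := (kP x y hx hy h (by rw [hyc]; exact hxc)).2.1
    rw [hyc] at this
    exact hdisj _ hc this
  have s1 : ∀ x, lo x → f x ≠ c → W c ∧ f x = a0 := by
    intro x hx hxc
    have h1 := (kQ x b hx hhb (s1' x hx hxc b hhb hb) (by rw [hb]; exact hxc)).1
    rw [hb] at h1
    exact hQs _ _ h1 hc (fun h => hxc h.symm)
  by_cases hall : ∀ x, lo x → f x = c
  · intro y
    rcases hcov y with hy | hy
    · exact hall y hy
    · by_contra hyc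
      have hZy : ∀ y, hi y → f y ≠ c → Z y := by
        intro y hy hyc
        obtain ⟨x, hx, hxy⟩ := hdn y hy
        exact (hZ y).2 ⟨hy, fun x' hx' => uB y hy hyc x hx (hall x hx) hxy x' hx' (hall x' hx')⟩
      have hb0c : f b0 = c := by
        by_contra h
        exact hb0Z (hZy b0 hb0 h)
      have h1 := hgQ y (hZy y hy hyc)
      rw [hb0c] at h1
      have h2 := (hQs _ _ h1 hc (fun h => hyc h.symm)).2
      obtain ⟨x, hx, hxy⟩ := hdn y hy
      have h3 := (kP x y hx hy hxy (by rw [hall x hx]; exact fun h => hyc h.symm)).2.1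
      rw [h2] at h3
      exact hdisj _ ha0 h3
  · exfalso
    push Not at hall
    obtain ⟨a1, ha1, ha1c⟩ := hall
    obtain ⟨hWc, ha10⟩ := s1 a1 ha1 ha1c
    have hfc : f c = c := by
      by_contra h
      exact s1' c hc h b hhb hb (((hW c).1 hWc).2 b hhb)
    have s3 : ∀ y, hi y → f y ≠ c → (∀ x, lo x → f x = c → P x y) ∧ hi (f y) := by
      intro y hy hyc
      have h1 : P c y := ((hW c).1 hWc).2 y hy
      exact ⟨uB y hy hyc c hc hfc h1, (kP c y hc hy h1 (by rw [hfc]; exact fun h => hyc h.symm)).2.1⟩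
    have s4 : ∀ x, lo x → f x ≠ c → x = a1 := by
      intro x hx hxc
      by_contra hne
      have h1 := (s1 x hx hxc).2
      obtain ⟨-, d, hd, hhd⟩ := hmix x a1 hne (h1.trans ha10.symm)
      have h2 := (s3 d hhd (by rw [hd]; exact hxc)).2
      rw [hd, h1] at h2
      exact hdisj _ ha0 h2
    have s5 : ∀ y, hi y → P a1 y → Z y := by
      intro y hy h
      have hyc : f y ≠ c := fun h' => s1' a1 ha1 ha1c y hy h' h
      refine (hZ y).2 ⟨hy, fun x hx => ?_⟩
      by_cases hxc : f x = c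
      · exact (s3 y hy hyc).1 x hx hxc
      · rw [s4 x hx hxc]; exact h
    by_cases hb0c : f b0 = c
    · obtain ⟨y, hy, hay⟩ := hup a1 ha1
      have hyc : f y ≠ c := fun h' => s1' a1 ha1 ha1c y hy h' hay
      have h1 := hgQ y (s5 y hy hay)
      rw [hb0c] at h1
      have h2 := (hQs _ _ h1 hc (fun h => hyc h.symm)).2
      have h3 := (s3 y hy hyc).2
      rw [h2] at h3
      exact hdisj _ ha0 h3
    · rcases hbad with hbad | hbad
      · apply hbad
        refine ⟨a1, ha1, s5, fun x hx => ⟨fun h hxa => ?_, fun hxa => ?_⟩⟩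
        · rw [hxa] at h
          exact hb0Z (s5 b0 hb0 h)
        · have hxc : f x = c := by
            by_contra h; exact hxa (s4 x hx h)
          exact (s3 b0 hb0 hb0c).1 x hx hxc
      · have hbZ : ¬ Z b := fun h =>
          s1' a1 ha1 ha1c b hhb hb (((hZ b).1 h).2 a1 ha1)
        exact hb0c (hbad b hhb hbZ ▸ hb)

/-- The choice of the special element. -/
theorem choose_special {P : X → X → Prop} {lo hi Z : X → Prop}
    (hZ : ∀ y, Z y ↔ hi y ∧ ∀ x, lo x → P x y)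
    (tlo : ∀ x x', lo x → lo x' → (∀ y, hi y → (P x y ↔ P x' y)) → x = x')
    (thi : ∀ y y', hi y → hi y' → (∀ x, lo x → (P x y ↔ P x y')) → y = y')
    (hex : ∃ y, hi y ∧ ¬ Z y) :
    ∃ b0, hi b0 ∧ ¬ Z b0 ∧
      ((¬ ∃ a1, lo a1 ∧ (∀ y, hi y → P a1 y → Z y) ∧ ∀ x, lo x → (P x b0 ↔ x ≠ a1)) ∨
        ∀ y, hi y → ¬ Z y → y = b0) := by
  by_cases h : ∃ b, hi b ∧ ¬ Z b ∧
      ¬ ∃ a1, lo a1 ∧ (∀ y, hi y → P a1 y → Z y) ∧ ∀ x, lo x → (P x b ↔ x ≠ a1)
  · obtain ⟨b, h1, h2, h3⟩ := h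
    exact ⟨b, h1, h2, Or.inl h3⟩
  · obtain ⟨b0, hb0, hbZ⟩ := hex
    have hall : ∀ b, hi b → ¬ Z b →
        ∃ a1, lo a1 ∧ (∀ y, hi y → P a1 y → Z y) ∧ ∀ x, lo x → (P x b ↔ x ≠ a1) := by
      intro b h1 h2
      by_contra h3
      exact h ⟨b, h1, h2, h3⟩
    refine ⟨b0, hb0, hbZ, Or.inr fun y hy hyZ => ?_⟩
    obtain ⟨a1, h1, h2, h3⟩ := hall b0 hb0 hbZ
    obtain ⟨a2, g1, g2, g3⟩ := hall y hy hyZ
    have h12 : a1 = a2 := by
      apply tlo a1 a2 h1 g1
      intro z hz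
      exact ⟨fun h => ((hZ z).1 (h2 z hz h)).2 a2 g1, fun h => ((hZ z).1 (g2 z hz h)).2 a1 h1⟩
    subst h12
    exact thi y b0 hy hb0 (fun x hx => (g3 x hx).trans (h3 x hx).symm)

/-- Height one, any cardinality, no further hypothesis. -/
theorem height_one_all {P : X → X → Prop} (hP : IsOrd P)
    (hA : ¬ ∃ A, IsAutonomous P A)
    (hh : ∀ x y z, P x y → P y z → x = y ∨ y = z)
    (hne : ∃ x y, x ≠ y ∧ P x y) :
    ∃ Q : X → X → Prop, IsOrd Q ∧ ∀ f : X → X, Pres P f → Pres Q f → IsConst f ∨ IsEmb P f := by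
  obtain ⟨lo, hlo⟩ : ∃ lo : X → Prop, ∀ x, lo x ↔ ∃ y, x ≠ y ∧ P x y := ⟨_, fun _ => Iff.rfl⟩
  obtain ⟨hi, hhi⟩ : ∃ hi : X → Prop, ∀ y, hi y ↔ ∃ x, x ≠ y ∧ P x y := ⟨_, fun _ => Iff.rfl⟩
  have hdisj : ∀ x, lo x → hi x → False := by
    intro x h h'
    obtain ⟨y, hxy, hy⟩ := (hlo x).1 h
    obtain ⟨w, hwx, hw⟩ := (hhi x).1 h'
    rcases hh w x y hw hy with h | h
    · exact hwx h
    · exact hxy h
  have hloP : ∀ x y, P x y → x ≠ y → lo x ∧ hi y := fun x y h hxy =>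
    ⟨(hlo x).2 ⟨y, hxy, h⟩, (hhi y).2 ⟨x, hxy, h⟩⟩
  have hcov : ∀ x, lo x ∨ hi x := by
    intro x
    by_contra hcon
    push Not at hcon
    obtain ⟨u, v, huv, hP'⟩ := hne
    have hun : ∀ y, y ≠ x → ¬ P x y ∧ ¬ P y x := fun y hy =>
      ⟨fun h => hcon.1 ((hlo x).2 ⟨y, hy.symm, h⟩), fun h => hcon.2 ((hhi x).2 ⟨y, hy, h⟩)⟩
    have hux : u ≠ x := fun h => by
      subst h; exact (hun v huv.symm).1 hP'
    have hvx : v ≠ x := fun h => by
      subst h; exact (hun u huv).2 hP'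
    apply hA
    refine ⟨{y | y ≠ x}, ?_, ⟨u, hux, v, hvx, huv⟩, ?_⟩
    · intro he
      have : x ∈ {y | y ≠ x} := by rw [he]; trivial
      exact this rfl
    · intro y hy
      have hyx : y = x := by
        by_contra h; exact hy h
      subst hyx
      exact ⟨fun ⟨a, ha, h⟩ => absurd h (hun a ha).1, fun ⟨a, ha, h⟩ => absurd h (hun a ha).2⟩
  have hup : ∀ x, lo x → ∃ y, hi y ∧ P x y := by
    intro x hx
    obtain ⟨y, hxy, h⟩ := (hlo x).1 hx
    exact ⟨y, (hloP x y h hxy).2, h⟩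
  have hdn : ∀ y, hi y → ∃ x, lo x ∧ P x y := by
    intro y hy
    obtain ⟨x, hxy, h⟩ := (hhi y).1 hy
    exact ⟨x, (hloP x y h hxy).1, h⟩
  have hlh : ∀ x y, lo x → hi y → x ≠ y := fun x y hx hy h => hdisj x hx (h ▸ hy)
  -- twins
  have tlo : ∀ x x', lo x → lo x' → (∀ y, hi y → (P x y ↔ P x' y)) → x = x' := by
    intro x x' hx hx' h
    by_contra hxx
    apply hA
    refine ⟨{x, x'}, ?_, ⟨x, by simp, x', by simp, hxx⟩, ?_⟩
    · intro he
      obtain ⟨y, hy, -⟩ := hup x hx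
      have : y ∈ ({x, x'} : Set X) := by rw [he]; trivial
      rcases this with rfl | h'
      · exact hdisj _ hx hy
      · exact hdisj _ hx' (by rw [Set.mem_singleton_iff] at h'; rw [← h']; exact hy)
    · intro y hy
      have hyx : y ≠ x := fun h => hy (by simp [h])
      have hyx' : y ≠ x' := fun h => hy (by simp [h])
      constructor
      · rintro ⟨a, ha | ha, hya⟩
        · rw [ha] at hya
          exact absurd (hloP _ _ hya hyx).2 (fun h => hdisj _ hx h)
        · rw [Set.mem_singleton_iff] at ha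
          rw [ha] at hya
          exact absurd (hloP _ _ hya hyx').2 (fun h => hdisj _ hx' h)
      · rintro ⟨a, ha | ha, hay⟩ c (hc | hc)
        · rw [hc]; rwa [ha] at hay
        · rw [Set.mem_singleton_iff] at hc
          rw [hc]; rw [ha] at hay
          exact (h y (hloP _ _ hay hyx.symm).2).1 hay
        · rw [Set.mem_singleton_iff] at ha
          rw [hc]; rw [ha] at hay
          exact (h y (hloP _ _ hay hyx'.symm).2).2 hay
        · rw [Set.mem_singleton_iff] at ha hc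
          rw [hc]; rwa [ha] at hay
  have thi : ∀ y y', hi y → hi y' → (∀ x, lo x → (P x y ↔ P x y')) → y = y' := by
    intro x x' hx hx' h
    by_contra hxx
    apply hA
    refine ⟨{x, x'}, ?_, ⟨x, by simp, x', by simp, hxx⟩, ?_⟩
    · intro he
      obtain ⟨y, hy, -⟩ := hdn x hx
      have : y ∈ ({x, x'} : Set X) := by rw [he]; trivial
      rcases this with rfl | h'
      · exact hdisj _ hy hx
      · exact hdisj _ (by rw [Set.mem_singleton_iff] at h'; rw [← h']; exact hy) hx'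
    · intro y hy
      have hyx : y ≠ x := fun h => hy (by simp [h])
      have hyx' : y ≠ x' := fun h => hy (by simp [h])
      constructor
      · rintro ⟨a, ha | ha, hay⟩ c (hc | hc)
        · rw [hc]; rwa [ha] at hay
        · rw [Set.mem_singleton_iff] at hc
          rw [hc]; rw [ha] at hay
          exact (h y (hloP _ _ hay hyx).1).1 hay
        · rw [Set.mem_singleton_iff] at ha
          rw [hc]; rw [ha] at hay
          exact (h y (hloP _ _ hay hyx').1).2 hay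
        · rw [Set.mem_singleton_iff] at ha hc
          rw [hc]; rwa [ha] at hay
      · rintro ⟨a, ha | ha, hya⟩
        · rw [ha] at hya
          exact absurd (hloP _ _ hya hyx.symm).1 (fun h => hdisj _ h hx)
        · rw [Set.mem_singleton_iff] at ha
          rw [ha] at hya
          exact absurd (hloP _ _ hya hyx'.symm).1 (fun h => hdisj _ h hx')
  obtain ⟨Z, hZ⟩ : ∃ Z : X → Prop, ∀ y, Z y ↔ hi y ∧ ∀ x, lo x → P x y := ⟨_, fun _ => Iff.rfl⟩
  obtain ⟨W, hW⟩ : ∃ W : X → Prop, ∀ x, W x ↔ lo x ∧ ∀ y, hi y → P x y := ⟨_, fun _ => Iff.rfl⟩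
  by_cases hcomp : ∀ x y, lo x → hi y → P x y
  · -- two elements
    have ulo : ∀ x x', lo x → lo x' → x = x' := fun x x' hx hx' =>
      tlo x x' hx hx' (fun y hy => ⟨fun _ => hcomp _ _ hx' hy, fun _ => hcomp _ _ hx hy⟩)
    have uhi : ∀ x x', hi x → hi x' → x = x' := fun x x' hx hx' =>
      thi x x' hx hx' (fun y hy => ⟨fun _ => hcomp _ _ hy hx', fun _ => hcomp _ _ hy hx⟩)
    refine ⟨P, hP, fun f hf _ => ?_⟩
    obtain ⟨u, v, huv, hPuv⟩ := hne
    obtain ⟨hlu, hhv⟩ := hloP u v hPuv huv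
    have hX : ∀ x, x = u ∨ x = v := fun x => by
      rcases hcov x with h | h
      · exact Or.inl (ulo _ _ h hlu)
      · exact Or.inr (uhi _ _ h hhv)
    by_cases hfe : f u = f v
    · left
      refine ⟨f u, fun x => ?_⟩
      rcases hX x with h | h
      · rw [h]
      · rw [h, hfe]
    · right
      have h1 := hloP _ _ (hf _ _ hPuv) hfe
      have e1 : f u = u := ulo _ _ h1.1 hlu
      have e2 : f v = v := uhi _ _ h1.2 hhv
      have hid : ∀ x, f x = x := fun x => by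
        rcases hX x with h | h
        · rw [h, e1]
        · rw [h, e2]
      refine ⟨fun x y h => ?_, fun x y => ?_⟩
      · rwa [hid, hid] at h
      · rw [hid, hid]
  push Not at hcomp
  obtain ⟨p, q, hp, hq, hpq⟩ := hcomp
  obtain ⟨b0, hb0, hb0Z, hbad⟩ := choose_special hZ tlo thi
    ⟨q, hq, fun h => hpq (((hZ q).1 h).2 p hp)⟩
  obtain ⟨a0, ha0, ha0W, hbad'⟩ := choose_special (P := fun x y => P y x) (lo := hi) (hi := lo)
    (Z := W) hW (fun y y' hy hy' h => thi y y' hy hy' h) (fun x x' hx hx' h => tlo x x' hx hx' h)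
    ⟨p, hp, fun h => hpq (((hW p).1 h).2 q hq)⟩
  -- the order
  obtain ⟨Q, hQ⟩ : ∃ Q : X → X → Prop, ∀ x y, Q x y ↔
    (x = y ∨ (hi x ∧ lo y ∧ ¬ P y x) ∨ (x = b0 ∧ Z y) ∨ (W x ∧ y = a0)) := ⟨_, fun _ _ => Iff.rfl⟩
  have hsrc : ∀ x y, Q x y → x ≠ y → ((hi x ∧ ¬ Z x) ∨ W x) ∧ ((lo y ∧ ¬ W y) ∨ Z y) := by
    intro x y h hxy
    rcases (hQ x y).1 h with h | ⟨h1, h2, h3⟩ | ⟨h1, h2⟩ | ⟨h1, h2⟩
    · exact absurd h hxy
    · exact ⟨Or.inl ⟨h1, fun h => h3 (((hZ x).1 h).2 y h2)⟩,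
        Or.inl ⟨h2, fun h => h3 (((hW y).1 h).2 x h1)⟩⟩
    · rw [h1]
      exact ⟨Or.inl ⟨hb0, hb0Z⟩, Or.inr h2⟩
    · rw [h2]
      exact ⟨Or.inr h1, Or.inl ⟨ha0, ha0W⟩⟩
  have hst : ∀ x, ((hi x ∧ ¬ Z x) ∨ W x) → ((lo x ∧ ¬ W x) ∨ Z x) → False := by
    rintro x (⟨h1, h2⟩ | h1) (⟨h3, h4⟩ | h3)
    · exact hdisj _ h3 h1
    · exact h2 h3
    · exact h4 h1
    · exact hdisj _ ((hW x).1 h1).1 ((hZ x).1 h3).1
  have hord : IsOrd Q := by
    refine ⟨fun x => (hQ x x).2 (Or.inl rfl), ?_, ?_⟩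
    · intro x y z hxy hyz
      by_cases h1 : x = y
      · rw [h1]; exact hyz
      by_cases h2 : y = z
      · rw [← h2]; exact hxy
      exact absurd (hsrc _ _ hxy h1).2 (fun h => hst _ (hsrc _ _ hyz h2).1 h)
    · intro x y hxy hyx
      by_contra h1
      exact hst _ (hsrc _ _ hyx (fun h => h1 h.symm)).1 (hsrc _ _ hxy h1).2
  have hQP : ∀ x y, Q x y → x ≠ y → ¬ P x y ∧ ¬ P y x := by
    intro x y h hxy
    rcases (hQ x y).1 h with h | ⟨h1, h2, h3⟩ | ⟨h1, h2⟩ | ⟨h1, h2⟩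
    · exact absurd h hxy
    · exact ⟨fun h => hdisj _ (hloP _ _ h hxy).1 h1, h3⟩
    · rw [h1] at hxy ⊢
      exact ⟨fun h => hdisj _ (hloP _ _ h hxy).1 hb0,
        fun h => hdisj _ (hloP _ _ h hxy.symm).1 ((hZ y).1 h2).1⟩
    · rw [h2] at hxy ⊢
      exact ⟨fun h => hdisj _ ha0 (hloP _ _ h hxy).2,
        fun h => hdisj _ ((hW x).1 h1).1 (hloP _ _ h hxy.symm).2⟩
  refine ⟨Q, hord, fun f hf hg => ?_⟩
  have kP : ∀ x y, lo x → hi y → P x y → f x ≠ f y → lo (f x) ∧ hi (f y) ∧ P (f x) (f y) := by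
    intro x y _ _ h hne
    exact ⟨(hloP _ _ (hf _ _ h) hne).1, (hloP _ _ (hf _ _ h) hne).2, hf _ _ h⟩
  have kQ : ∀ x y, lo x → hi y → ¬ P x y → f x ≠ f y → Q (f y) (f x) ∧ ¬ P (f x) (f y) := by
    intro x y hx hy h hne
    have h1 := hg y x ((hQ y x).2 (Or.inr (Or.inl ⟨hy, hx, h⟩)))
    exact ⟨h1, (hQP _ _ h1 hne.symm).2⟩
  by_cases hinj : Function.Injective f
  · right
    have flo : ∀ x, lo x → lo (f x) := by
      intro x hx
      obtain ⟨y, hy, h⟩ := hup x hx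
      exact (kP x y hx hy h (fun h => hlh x y hx hy (hinj h))).1
    have fhi : ∀ x, hi x → hi (f x) := by
      intro y hy
      obtain ⟨x, hx, h⟩ := hdn y hy
      exact (kP x y hx hy h (fun h => hlh x y hx hy (hinj h))).2.1
    refine ⟨hinj, fun x y => ⟨hf x y, fun h => ?_⟩⟩
    by_contra hxy
    have hne : x ≠ y := fun h => hxy (h ▸ hP.1 x)
    have hfne : f x ≠ f y := fun h => hne (hinj h)
    obtain ⟨h1, h2⟩ := hloP _ _ h hfne
    have hx : lo x := (hcov x).resolve_right (fun h' => hdisj _ h1 (fhi x h'))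
    have hy : hi y := (hcov y).resolve_left (fun h' => hdisj _ (flo y h') h2)
    exact (kQ x y hx hy hxy hfne).2 h
  · left
    by_contra hconst
    have hmix : ∀ u v, u ≠ v → f u = f v → (∃ a, f a = f u ∧ lo a) ∧ (∃ b, f b = f u ∧ hi b) := by
      intro u v hne' huv
      by_contra hmix
      apply hconst
      refine not_injective_class hA hne' huv ?_
      intro x hx
      have pure : (∀ a, f a = f u → lo a) ∨ (∀ a, f a = f u → hi a) := by
        by_contra hcon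
        push Not at hcon
        obtain ⟨⟨a, ha, hla⟩, ⟨b, hb, hhb⟩⟩ := hcon
        exact hmix ⟨⟨b, hb, (hcov b).resolve_right hhb⟩, ⟨a, ha, (hcov a).resolve_left hla⟩⟩
      constructor
      · rintro ⟨a, ha, hxa⟩ b hb
        by_contra hxb
        have hxa' : x ≠ a := fun h => hx (h ▸ ha)
        obtain ⟨hlx, hha⟩ := hloP _ _ hxa hxa'
        have hhb : hi b := by
          rcases pure with h | h
          · exact absurd hha (fun h' => hdisj _ (h a ha) h')
          · exact h b hb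
        have h1 := (kQ x b hlx hhb hxb (by rw [hb]; exact hx)).2
        have h2 := hf _ _ hxa
        rw [hb] at h1
        rw [ha] at h2
        exact h1 h2
      · rintro ⟨a, ha, hxa⟩ b hb
        by_contra hxb
        have hxa' : a ≠ x := fun h => hx (h ▸ ha)
        obtain ⟨hla, hhx⟩ := hloP _ _ hxa hxa'
        have hlb : lo b := by
          rcases pure with h | h
          · exact h b hb
          · exact absurd hla (fun h' => hdisj _ h' (h a ha))
        have h1 := (kQ b x hlb hhx hxb (by rw [hb]; exact fun h => hx h.symm)).2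
        have h2 := hf _ _ hxa
        rw [hb] at h1
        rw [ha] at h2
        exact h1 h2
    simp only [Function.Injective, not_forall] at hinj
    obtain ⟨u, v, huv, hne'⟩ := hinj
    obtain ⟨⟨a, ha, hla⟩, ⟨b, hb, hhb⟩⟩ := hmix u v hne' huv
    apply hconst
    refine ⟨f u, ?_⟩
    rcases hcov (f u) with hm | hm
    · refine case_lo hdisj hcov hup hdn hZ hW ha0 hb0 hb0Z hbad ?_ kP kQ ?_ hmix hb hhb hm
      · intro x y hxy hx hne
        rcases (hQ x y).1 hxy with h | ⟨h1, h2, h3⟩ | ⟨h1, h2⟩ | ⟨h1, h2⟩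
        · exact absurd h hne
        · exact absurd h1 (fun h => hdisj _ hx h)
        · exact absurd hb0 (fun h => hdisj _ hx (h1 ▸ h))
        · exact ⟨h1, h2⟩
      · intro y hy
        exact hg _ _ ((hQ _ _).2 (Or.inr (Or.inr (Or.inl ⟨rfl, hy⟩))))
    · refine case_lo (P := fun x y => P y x) (Q := fun x y => Q y x) (lo := hi) (hi := lo) (Z := W)
        (W := Z) (a0 := b0) (b0 := a0) (f := f) (fun x h h' => hdisj x h' h)
        (fun x => (hcov x).symm) hdn hup hW hZ hb0 ha0 ha0W hbad' ?_ ?_ ?_ ?_ ?_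
        ha hla hm
      · intro x y hxy hx hne
        rcases (hQ y x).1 hxy with h | ⟨h1, h2, h3⟩ | ⟨h1, h2⟩ | ⟨h1, h2⟩
        · exact absurd h.symm hne
        · exact absurd h2 (fun h => hdisj _ h hx)
        · exact ⟨h2, h1⟩
        · exact absurd ha0 (fun h => hdisj _ (h2 ▸ h) hx)
      · intro x y hx hy h hne
        have := kP y x hy hx h hne.symm
        exact ⟨this.2.1, this.1, this.2.2⟩
      · intro x y hx hy h hne
        exact kQ y x hy hx h hne.symm
      · intro y hy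
        exact hg _ _ ((hQ _ _).2 (Or.inr (Or.inr (Or.inr ⟨hy, rfl⟩))))
      · intro u v h h'
        exact (hmix u v h h').symm

/-- Height at most one, any cardinality. -/
theorem height_le_one_all {P : X → X → Prop} (hP : IsOrd P)
    (hA : ¬ ∃ A, IsAutonomous P A)
    (hh : ∀ x y z, P x y → P y z → x = y ∨ y = z) :
    ∃ Q : X → X → Prop, IsOrd Q ∧ ∀ f : X → X, Pres P f → Pres Q f → IsConst f ∨ IsEmb P f := by
  by_cases hne : ∃ x y, x ≠ y ∧ P x y
  · exact height_one_all hP hA hh hne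
  · exact ⟨P, hP, fun f _ _ => antichain hP hA hne f⟩

end Pool.Agent.TH179.Perp
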